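import Pool.Agent.H487Z.HnD

set_option autoImplicit false

open Pool.Agent.H487Z.Heesch

/-- In every dimension `n ≥ 2` and for every `k` there is a body in `𝔼ⁿ` that can be completely
surrounded `k` times by congruent copies of itself but does not tile `𝔼ⁿ`. -/
theorem Pool.Agent.Results.MP_127c5d_co.AUnboundedEveryDimension.result :
    ∀ n : ℕ, 2 ≤ n → ∀ k : ℕ, ∃ A : Set (EuclideanSpace ℝ (Fin n)),
      (interior A).Nonempty ∧ IsBody A ∧ CompletelySurrounded A k ∧ ¬ Tiles A :=
  fun _ hn k => Pool.Agent.H487Z.HeeschN.main_dim hn k
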